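import Pool.Agent.Lib.MP_7e9d3d_co.Geo

namespace Pool.Agent.Results.MP_7e9d3d_co.BenzelCount

open Pool.Agent.Lib.MP_7e9d3d_co

theorem result (n : ℕ) (hn : 5 ≤ n) :
    (T103 (n : ℤ) (2 * (n : ℤ) - 3) : ℚ) =
      ((3 * n + 3 : ℕ) : ℚ) * (Nat.factorial (3 * n - 7) : ℚ) /
        ((Nat.factorial (n - 5) : ℚ) * (Nat.factorial (2 * n - 1) : ℚ)) := by
  obtain ⟨m, rfl⟩ : ∃ m, n = m + 5 := ⟨n - 5, by omega⟩
  have h1 := T103_eq (N := (m : ℤ) + 3) (by omega)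
  have h2 := ncard_atiling (N := (m : ℤ) + 3) (by omega)
  rw [← h1, show (m : ℤ) + 3 + 2 = ((m + 5 : ℕ) : ℤ) by push_cast; ring,
    show 3 * ((m : ℤ) + 3) - 1 = ((3 * m + 8 : ℕ) : ℤ) by push_cast; ring,
    show (m : ℤ) + 3 - 3 = m by ring, show (m : ℤ) + 3 - 4 = m - 1 by ring] at h2
  have h3 := B_mul ((3 * m + 8 : ℕ) : ℤ) m
  rw [B_nat] at h2 h3
  generalize T103 _ _ = t at h2 ⊢
  have h4 : (2 * m + 9 : ℤ) * t = (3 * m + 18) * ((3 * m + 8).choose m : ℕ) := by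
    push_cast at h2 h3 ⊢
    rw [h2]; linear_combination h3
  have h5 : (2 * m + 9 : ℚ) * t = (3 * m + 18) * ((3 * m + 8).choose m : ℕ) := by
    exact_mod_cast h4
  rw [Nat.cast_choose ℚ (show m ≤ 3 * m + 8 by omega)] at h5
  rw [show 3 * (m + 5) - 7 = 3 * m + 8 by omega, show m + 5 - 5 = m by omega,
    show 2 * (m + 5) - 1 = (3 * m + 8 - m) + 1 by omega, Nat.factorial_succ (3 * m + 8 - m)]
  have h6 : ((3 * m + 8 - m + 1 : ℕ) : ℚ) = 2 * m + 9 := by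
    rw [show 3 * m + 8 - m + 1 = 2 * m + 9 by omega]; push_cast; ring
  push_cast [h6] at h5 ⊢
  have h7 : (2 * m + 9 : ℚ) ≠ 0 := by positivity
  apply mul_left_cancel₀ h7
  rw [h5]
  field_simp
  ring

end Pool.Agent.Results.MP_7e9d3d_co.BenzelCount
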